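import Pool.Agent.FBR.Dec

set_option autoImplicit false

open scoped Classical

namespace Pool.Agent.FBR

/-! ### the twisting cocycle `V` -/

/-- auxiliary data over `ZMod 2` -/
def daux (n : ℕ) : Dat (ZMod 2) Unit (ZMod 2 × Vn n) (Vn n) where
  pe := 1
  pz := 1
  om := LinearMap.mk₂ (ZMod 2) (fun a b => a.1 • b.2)
    (by intro a a' b; simp [add_smul])
    (by intro r a b; simp [mul_smul])
    (by intro a b b'; simp)
    (by intro r a b; simp [smul_smul, mul_comm])
  eqv := by intro q x y; simp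

theorem exists_V {X : Type} {n : ℕ} (e : FreeGroup X → Vn n) (be : FreeGroup X → ZMod 2)
    (he : ∀ g g', e (g * g') = e g + e g') (hbe : ∀ g g', be (g * g') = be g + be g') :
    ∃ V : FreeGroup X → Vn n, ∀ g g', V (g * g') = V g + V g' + be g • e g' := by
  let φ : FreeGroup X →* Con (daux n) :=
    FreeGroup.lift fun x => ⟨(be (FreeGroup.of x), e (FreeGroup.of x)), 0, 1⟩
  have he1 : e 1 = 0 := by
    have := he 1 1
    rw [mul_one] at this
    exact left_eq_add.mp this
  have hb1 : be 1 = 0 := by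
    have := hbe 1 1
    rw [mul_one] at this
    exact left_eq_add.mp this
  have heinv : ∀ g, e g⁻¹ = - e g := by
    intro g
    have := he g⁻¹ g
    rw [inv_mul_cancel, he1] at this
    exact (neg_eq_of_add_eq_zero_left this.symm).symm
  have hbinv : ∀ g, be g⁻¹ = - be g := by
    intro g
    have := hbe g⁻¹ g
    rw [inv_mul_cancel, hb1] at this
    exact (neg_eq_of_add_eq_zero_left this.symm).symm
  have hpe : ∀ (u : Unit) v, (daux n).pe u v = v := by intro u v; rfl
  have hpz : ∀ (u : Unit) v, (daux n).pz u v = v := by intro u v; rfl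
  have ha : ∀ g, (φ g).a = (be g, e g) := by
    intro g
    induction g using FreeGroup.induction_on with
    | C1 => rw [map_one, he1, hb1]; rfl
    | of x => simp [φ]
    | inv_of x hx => rw [map_inv, Con.inv_a, hpe, hx, hbinv, heinv]; rfl
    | mul x y hx hy => rw [map_mul, Con.mul_a, hpe, hx, hy, hbe, he]; rfl
  refine ⟨fun g => (φ g).c, ?_⟩
  intro g g'
  show (φ (g * g')).c = (φ g).c + (φ g').c + be g • e g'
  rw [map_mul, Con.mul_c, hpe, hpz, ha, ha]
  rfl

variable {K : Type} [Field K] {n : ℕ}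

/-- generators of the part of the model group orthogonal to `z` -/
inductive Gn (K : Type) [Field K] (n : ℕ) (z : Vn n) : Type
  | A (h : Hn n) : Gn K n z
  | B (q : Hn n × Kˣ) (hq : dot z q.1.e = 0) : Gn K n z
  | C (c : K) : Gn K n z

noncomputable def canx (z : Vn n) : Gn K n z → Con (mdat K n)
  | .A h => ⟨Pi.single h 1, 0, 1⟩
  | .B q _ => ⟨0, 0, q⟩
  | .C c => ⟨0, c, 1⟩

noncomputable def can (z : Vn n) : FreeGroup (Gn K n z) →* Con (mdat K n) :=
  FreeGroup.lift (canx z)

noncomputable def qn (z : Vn n) : FreeGroup (Gn K n z) →* Hn n × Kˣ :=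
  (Con.proj (mdat K n)).comp (can z)

theorem qn_e (z : Vn n) (g : FreeGroup (Gn K n z)) : dot z (qn z g).1.e = 0 := by
  induction g using FreeGroup.induction_on with
  | C1 => simp
  | of x => cases x with
    | A h => simp [qn, can, canx, Con.proj]
    | B q hq => simpa [qn, can, canx, Con.proj] using hq
    | C c => simp [qn, can, canx, Con.proj]
  | inv_of x hx => simpa using hx
  | mul x y hx hy => rw [map_mul, Prod.fst_mul, Hn.mul_e, dot_add, hx, hy, add_zero]

theorem ta_mul (z : Vn n) (g g' : FreeGroup (Gn K n z)) :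
    ctr z (qn z (g * g')).1.w = ctr z (qn z g).1.w + ctr z (qn z g').1.w := by
  rw [map_mul, Prod.fst_mul, Hn.ctr_mul, qn_e, zero_smul, add_zero]

theorem phi_mul_right (G G' h : Hn n) : phi K (G * h) (G' * h) = phi K G G' := by
  unfold phi
  refine Finset.sum_congr rfl fun r _ => if_congr ?_ rfl rfl
  rw [Hn.ctr_mul, Hn.ctr_mul, Hn.mul_e, Hn.mul_e]
  constructor
  · rintro ⟨h1, h2⟩
    have h3 := add_right_cancel h1
    rw [h3] at h2
    exact ⟨h3, add_right_cancel (add_right_cancel h2)⟩
  · rintro ⟨h1, h2⟩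
    rw [h1, h2]
    exact ⟨rfl, rfl⟩

theorem diag (h2 : (2 : K) = 0) (z : Vn n) (hz : z ≠ 0) (Y : UZ2 K (Gn K n z)) (hR : RP Y)
    (x : Gn K n z) (h : Hn n) :
    Finsupp.linearCombination K
      (fun p : (FreeGroup (Gn K n z) × Gn K n z) × (FreeGroup (Gn K n z) × Gn K n z) =>
      (if p.1.2 = x ∧ p.2.2 = x then ((qn z p.1.1).2 : K) * ((qn z p.2.1).2 : K) *
        phi K ((qn z p.1.1).1 * h) ((qn z p.2.1).1 * h) else 0)) Y = 0 := by
  have key : ∀ p : (FreeGroup (Gn K n z) × Gn K n z) × (FreeGroup (Gn K n z) × Gn K n z),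
      (if p.1.2 = x ∧ p.2.2 = x then ((qn z p.1.1).2 : K) * ((qn z p.2.1).2 : K) *
        phi K ((qn z p.1.1).1 * h) ((qn z p.2.1).1 * h) else 0) =
      ∑ t ∈ (Finset.univ : Finset (Vn n)).filter (fun t => t ≠ 0),
        (if p.1.2 = x ∧ p.2.2 = x ∧ (qn z p.1.1).1.e = (qn z p.2.1).1.e ∧
          ctr z (qn z p.1.1).1.w + ctr z (qn z p.2.1).1.w = t then
        ((qn z p.1.1).2 : K) * ((qn z p.2.1).2 : K) *
        Dc K ((qn z p.1.1).1.w + (qn z p.2.1).1.w) 0 else 0) := by
    rintro ⟨⟨g, y⟩, ⟨g', y'⟩⟩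
    simp only [phi_mul_right]
    simp only [phi_eq]
    by_cases hy : y = x ∧ y' = x
    · obtain ⟨rfl, rfl⟩ := hy
      by_cases he : (qn z g).1.e = (qn z g').1.e
      · simp only [he, true_and, if_true, and_self]
        rw [Finset.sum_ite_eq]
        split_ifs with h3
        · rfl
        · rw [Dc_zero h2 _ 0 z hz, mul_zero]
          rw [ctr_add]
          by_contra h4
          exact h3 (by simpa using h4)
      · simp [he]
    · have e1 : ∀ t, ¬ (y = x ∧ y' = x ∧ (qn z g).1.e = (qn z g').1.e ∧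
          ctr z (qn z g).1.w + ctr z (qn z g').1.w = t) := by
        rintro t ⟨h3, h4, -⟩; exact hy ⟨h3, h4⟩
      rw [if_neg hy]
      symm
      exact Finset.sum_eq_zero fun t _ => if_neg (e1 t)
  simp only [key]
  refine lc_sum _ _ _ fun t ht => ?_
  have ht0 : t ≠ 0 := by simpa using ht
  obtain ⟨j, hj⟩ : ∃ j, t j ≠ 0 := by
    by_contra hcon
    push Not at hcon
    exact ht0 (funext hcon)
  have hj1 : t j = 1 := by
    revert hj
    generalize t j = u
    revert u
    decide
  have he : ∀ g g' : FreeGroup (Gn K n z), (qn z (g * g')).1.e = (qn z g).1.e + (qn z g').1.e := by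
    intro g g'
    rw [map_mul, Prod.fst_mul, Hn.mul_e]
  obtain ⟨V, hV⟩ := exists_V (fun g => (qn z g).1.e) (fun g => ctr z (qn z g).1.w j) he
    (fun g g' => by rw [ta_mul]; rfl)
  exact diag_t h2 (qn z) Y hR x (fun g => ctr z (qn z g).1.w j) V
    (fun g => ctr z (qn z g).1.w) (fun g g' => by rw [ta_mul]; rfl) hV (ta_mul z) t
    (fun g g' hg => by rw [← hj1, ← hg]; rfl)

/-- quadratic part -/
theorem quad (h2 : (2 : K) = 0) (z : Vn n) (hz : z ≠ 0) (Y : UZ2 K (Gn K n z)) (hR : RP Y) :
    LZ2 (mdat K n) (can z) Y = 0 := by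
  have hpe : ∀ (q : Hn n × Kˣ) (h : Hn n),
      (mdat K n).pe q (Pi.single h 1) = Pi.single (q.1 * h) (q.2 : K) := by
    intro q h
    funext x
    show (q.2 : K) * (Pi.single h 1 : Hn n → K) (q.1⁻¹ * x) = _
    by_cases hx : x = q.1 * h
    · subst hx
      simp
    · have : q.1⁻¹ * x ≠ h := fun h' => hx (by rw [← h']; group)
      rw [Pi.single_eq_of_ne hx, Pi.single_eq_of_ne this, mul_zero]
  have hom : ∀ (x y : Hn n) (r s : K), (mdat K n).om (Pi.single x r) (Pi.single y s) =
      r * s * phi K x y := by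
    intro x y r s
    show ∑ x' : Hn n, ∑ y' : Hn n, (Pi.single x r : Hn n → K) x' *
      (Pi.single y s : Hn n → K) y' * phi K x' y' = _
    rw [Finset.sum_eq_single x, Finset.sum_eq_single y]
    · simp
    · intro b _ hb; rw [Pi.single_eq_of_ne hb]; simp
    · intro hb; exact absurd (Finset.mem_univ _) hb
    · intro b _ hb
      refine Finset.sum_eq_zero fun c _ => ?_
      rw [Pi.single_eq_of_ne hb]; simp
    · intro hb; exact absurd (Finset.mem_univ _) hb
  let T : Hn n × Hn n → (FreeGroup (Gn K n z) × Gn K n z) × (FreeGroup (Gn K n z) × Gn K n z) → K :=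
    fun hh p => if p.1.2 = Gn.A hh.1 ∧ p.2.2 = Gn.A hh.2 then
      ((qn z p.1.1).2 : K) * ((qn z p.2.1).2 : K) *
        phi K ((qn z p.1.1).1 * hh.1) ((qn z p.2.1).1 * hh.2) else 0
  have key : ∀ p : (FreeGroup (Gn K n z) × Gn K n z) × (FreeGroup (Gn K n z) × Gn K n z),
      (mdat K n).om ((mdat K n).pe (can z p.1.1).q (can z (FreeGroup.of p.1.2)).a)
        ((mdat K n).pe (can z p.2.1).q (can z (FreeGroup.of p.2.2)).a) =
      ∑ hh : Hn n × Hn n, T hh p := by
    rintro ⟨⟨g, y⟩, ⟨g', y'⟩⟩
    have hc : ∀ y : Gn K n z, can z (FreeGroup.of y) = canx z y := fun y => by simp [can]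
    have hqa : ∀ g : FreeGroup (Gn K n z), (can z g).q = qn z g := fun g => rfl
    simp only [hc, hqa]
    rw [Fintype.sum_prod_type]
    cases y with
    | A h =>
      cases y' with
      | A h' =>
        simp only [canx, hpe, hom]
        rw [Finset.sum_eq_single h, Finset.sum_eq_single h']
        · simp [T]
        · intro b _ hb
          simp [T, hb.symm]
        · intro hb; exact absurd (Finset.mem_univ _) hb
        · intro b _ hb
          refine Finset.sum_eq_zero fun c _ => ?_
          simp [T, hb.symm]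
        · intro hb; exact absurd (Finset.mem_univ _) hb
      | B q hq => simp [canx, T]
      | C c => simp [canx, T]
    | B q hq => simp [canx, T]
    | C c => simp [canx, T]
  have hT : LZ2 (mdat K n) (can z) Y = ∑ hh : Hn n × Hn n, Finsupp.linearCombination K (T hh) Y := by
    unfold LZ2
    simp only [key]
    rw [Finsupp.linearCombination_apply, Finsupp.sum]
    simp only [Finset.smul_sum]
    rw [Finset.sum_comm]
    refine Finset.sum_congr rfl fun hh _ => ?_
    rw [Finsupp.linearCombination_apply, Finsupp.sum]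
  have hdiag : ∀ h, Finsupp.linearCombination K (T (h, h)) Y = 0 := by
    intro h
    exact diag h2 z hz Y hR (Gn.A h) h
  rw [hT]
  refine Finset.sum_involution (fun hh _ => (hh.2, hh.1)) ?_ ?_ ?_ ?_
  · rintro ⟨h, h'⟩ _
    by_cases hh : h = h'
    · subst hh
      rw [hdiag, add_zero]
    · have hne : (Gn.A h : Gn K n z) ≠ Gn.A h' := by
        intro h3
        exact hh (by injection h3)
      have := polar (qn z) Y hR (Gn.A h) (Gn.A h') hne h h'
      rw [← this]
      simp only [Finsupp.linearCombination_apply, Finsupp.sum, ← Finset.sum_add_distrib, ← smul_add]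
      rfl
  · rintro ⟨h, h'⟩ _ hne heq
    have : h = h' := by
      have := congrArg Prod.snd heq
      exact this
    subst this
    exact hne (hdiag h)
  · intro hh _
    exact Finset.mem_univ _
  · intro hh _
    rfl

end Pool.Agent.FBR
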