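import Pool.Agent.FBR.Mod

set_option autoImplicit false

open scoped Classical

namespace Pool.Agent.FBR

variable {K : Type} [Field K] {n : ℕ}

/-- number of solutions, in `K` -/
noncomputable def Dc (K : Type) [Field K] {n : ℕ} (w : Mn n) (c : Vn n) : K :=
  ∑ r : Vn n, if ctr r w = c then (1 : K) else 0

theorem Dc_zero (h2 : (2 : K) = 0) (w : Mn n) (c : Vn n) (z : Vn n) (hz : z ≠ 0)
    (hw : ctr z w = 0) : Dc K w c = 0 := by
  unfold Dc
  refine Finset.sum_involution (fun r _ => r + z) ?_ ?_ ?_ ?_
  · intro r _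
    rw [ctr_add_left, hw, add_zero]
    rw [← two_mul, h2, zero_mul]
  · intro r _ _ h
    exact hz (by simpa using h)
  · intro r _
    exact Finset.mem_univ _
  · intro r _
    rw [add_assoc, vadd_self, add_zero]

theorem Dc_one (w : Mn n) (c : Vn n) (hw : ∀ z : Vn n, ctr z w = 0 → z = 0) : Dc K w c = 1 := by
  have hinj : Function.Injective (fun r : Vn n => ctr r w) := by
    intro r r' h
    have : ctr (r + r') w = 0 := by
      rw [ctr_add_left]
      have h' : ctr r w = ctr r' w := h
      rw [h', vadd_self]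
    have h3 := hw _ this
    calc r = r + (r' + r') := by rw [vadd_self, add_zero]
      _ = (r + r') + r' := by rw [add_assoc]
      _ = r' := by rw [h3, zero_add]
  have hbij : Function.Bijective (fun r : Vn n => ctr r w) :=
    Finite.injective_iff_bijective.mp hinj
  unfold Dc
  have := Equiv.sum_comp (Equiv.ofBijective _ hbij) (fun v : Vn n => if v = c then (1 : K) else 0)
  simp only [Equiv.ofBijective_apply] at this
  rw [this]
  simp

theorem Dc_indep (h2 : (2 : K) = 0) (w : Mn n) (c c' : Vn n) : Dc K w c = Dc K w c' := by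
  by_cases hw : ∀ z : Vn n, ctr z w = 0 → z = 0
  · rw [Dc_one w c hw, Dc_one w c' hw]
  · push Not at hw
    obtain ⟨z, hz, hz0⟩ := hw
    rw [Dc_zero h2 w c z hz0 hz, Dc_zero h2 w c' z hz0 hz]

theorem phi_eq (x y : Hn n) :
    phi K x y = if x.e = y.e then Dc K (x.w + y.w) 0 else 0 := by
  unfold phi Dc
  split_ifs with h
  · refine Finset.sum_congr rfl fun r _ => ?_
    congr 1
    simp only [h, true_and, ctr_add, eq_iff_iff]
    constructor
    · intro h1; rw [h1, vadd_self]
    · intro h1
      calc ctr r x.w = ctr r x.w + (ctr r y.w + ctr r y.w) := by rw [vadd_self, add_zero]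
        _ = (ctr r x.w + ctr r y.w) + ctr r y.w := by rw [add_assoc]
        _ = ctr r y.w := by rw [h1, zero_add]
  · refine Finset.sum_eq_zero fun r _ => ?_
    simp [h]

theorem phi_self (h2 : (2 : K) = 0) (hn : 0 < n) (x : Hn n) : phi K x x = 0 := by
  rw [phi_eq, if_pos rfl, madd_self]
  refine Dc_zero h2 _ _ (fun _ => 1) ?_ (by simp)
  intro h
  have := congrFun h ⟨0, hn⟩
  simp at this

theorem phi_symm (x y : Hn n) : phi K x y = phi K y x := by
  rw [phi_eq, phi_eq, add_comm x.w y.w]
  by_cases h : x.e = y.e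
  · rw [if_pos h, if_pos h.symm]
  · rw [if_neg h, if_neg (fun h' => h h'.symm)]

end Pool.Agent.FBR
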