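import Pool.Agent.FBR.Rl
import Pool.Agent.FBR.Cnt

set_option autoImplicit false

open scoped Classical

namespace Pool.Agent.FBR

variable {K : Type} [Field K] {X : Type} {n : ℕ}

abbrev Bn (K : Type) [Field K] (n : ℕ) : Type := Multiplicative (Vn n × Vn n × Vn n) × Kˣ

/-- the homomorphism to `Wr` attached to a linear functional `r` and twisting data -/
def Psi (q : FreeGroup X →* Hn n × Kˣ) (be : FreeGroup X → ZMod 2) (V ta : FreeGroup X → Vn n)
    (hbe : ∀ g g', be (g * g') = be g + be g')
    (hV : ∀ g g', V (g * g') = V g + V g' + be g • (q g').1.e)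
    (hta : ∀ g g', ta (g * g') = ta g + ta g') (r : Vn n) : FreeGroup X →* Wr (Bn K n) :=
  MonoidHom.mk'
    (fun g => ⟨fun m => (Multiplicative.ofAdd
      (ctr r (q g).1.w + V g + m • (q g).1.e, (q g).1.e, ta g), (q g).2),
      dot r (q g).1.e + be g⟩)
    (by
      intro g g'
      refine Wr.ext (funext fun m => ?_) ?_
      · refine Prod.ext ?_ ?_
        · show Multiplicative.ofAdd _ = Multiplicative.ofAdd _ * Multiplicative.ofAdd _
          rw [← ofAdd_add]
          congr 1
          refine Prod.ext ?_ (Prod.ext ?_ ?_)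
          · show ctr r (q (g * g')).1.w + V (g * g') + m • (q (g * g')).1.e =
              (ctr r (q g).1.w + V g + m • (q g).1.e) +
              (ctr r (q g').1.w + V g' + (m + (dot r (q g).1.e + be g)) • (q g').1.e)
            rw [map_mul, Prod.fst_mul, Hn.ctr_mul, hV, Hn.mul_e]
            funext j
            simp only [Pi.add_apply, Pi.smul_apply, smul_eq_mul]
            ring
          · show (q (g * g')).1.e = (q g).1.e + (q g').1.e
            rw [map_mul, Prod.fst_mul, Hn.mul_e]
          · exact hta g g'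
        · show (q (g * g')).2 = (q g).2 * (q g').2
          rw [map_mul, Prod.snd_mul]
      · show dot r (q (g * g')).1.e + be (g * g') =
          (dot r (q g).1.e + be g) + (dot r (q g').1.e + be g')
        rw [map_mul, Prod.fst_mul, Hn.mul_e, dot_add, hbe]
        ring)

theorem lc_sum {ι κ : Type} (s : Finset κ) (F : κ → ι → K) (Y : ι →₀ K)
    (h : ∀ k ∈ s, Finsupp.linearCombination K (F k) Y = 0) :
    Finsupp.linearCombination K (fun p => ∑ k ∈ s, F k p) Y = 0 := by
  rw [Finsupp.linearCombination_apply, Finsupp.sum]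
  simp only [Finset.smul_sum]
  rw [Finset.sum_comm]
  refine Finset.sum_eq_zero fun k hk => ?_
  have := h k hk
  rw [Finsupp.linearCombination_apply, Finsupp.sum] at this
  exact this

theorem vswap (a b c d : Vn n) : a + b = c + d ↔ a + c = b + d := by
  simp only [funext_iff, Pi.add_apply]
  refine forall_congr' fun i => ?_
  generalize a i = a'
  generalize b i = b'
  generalize c i = c'
  generalize d i = d'
  revert a' b' c' d'
  decide

theorem cond_iff (r : Vn n) (G G' h h' : Hn n) :
    ((G * h).e = (G' * h').e ∧ ctr r (G * h).w = ctr r (G' * h').w) ↔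
    (G.e + G'.e = h.e + h'.e ∧ ctr r G.w + ctr r G'.w =
      ctr r (h.w + h'.w) + (dot r G.e) • h.e + (dot r G'.e) • h'.e) := by
  rw [Hn.ctr_mul, Hn.ctr_mul, Hn.mul_e, Hn.mul_e, ctr_add, add_assoc, add_assoc]
  have : ctr r h.w + dot r G.e • h.e + (ctr r h'.w + dot r G'.e • h'.e) =
      ctr r h.w + ctr r h'.w + dot r G.e • h.e + dot r G'.e • h'.e := by abel
  rw [← this]
  exact and_congr (vswap _ _ _ _) (vswap _ _ _ _)

theorem sum2 (u u' : ZMod 2) (F : ZMod 2 → ZMod 2 → K) :
    ∑ m : ZMod 2, ∑ m' : ZMod 2, ((if u = m then (1 : K) else 0) *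
      (if u' = m' then (1 : K) else 0)) * F m m' = F u u' := by
  simp [Finset.sum_ite_eq]

theorem sum2' (u u' : ZMod 2) (F : ZMod 2 → ZMod 2 → K) :
    ∑ m : ZMod 2, ∑ m' : ZMod 2, ((if u = m' then (1 : K) else 0) *
      (if u' = m then (1 : K) else 0)) * F m m' = F u' u := by
  simp [Finset.sum_ite_eq]

/-- off-diagonal terms -/
theorem polar (q : FreeGroup X →* Hn n × Kˣ) (Y : UZ2 K X) (hR : RP Y) (x x' : X) (hx : x ≠ x')
    (h h' : Hn n) :
    Finsupp.linearCombination K (fun p : (FreeGroup X × X) × (FreeGroup X × X) =>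
      (if p.1.2 = x ∧ p.2.2 = x' then ((q p.1.1).2 : K) * ((q p.2.1).2 : K) *
        phi K ((q p.1.1).1 * h) ((q p.2.1).1 * h') else 0) +
      (if p.1.2 = x' ∧ p.2.2 = x then ((q p.1.1).2 : K) * ((q p.2.1).2 : K) *
        phi K ((q p.1.1).1 * h') ((q p.2.1).1 * h) else 0)) Y = 0 := by
  let a : ZMod 2 → ZMod 2 → X → ZMod 2 → K × K := fun μ μ' z m =>
    if z = x then (if m = μ then 1 else 0, 0) else
      if z = x' then (0, if m = μ' then 1 else 0) else 0
  let f : Vn n → ZMod 2 → ZMod 2 → Bn K n → K := fun r μ μ' v =>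
    if (Multiplicative.toAdd v.1).2.1 = h.e + h'.e ∧
      (Multiplicative.toAdd v.1).1 = ctr r (h.w + h'.w) + μ • h.e + μ' • h'.e then (v.2 : K) else 0
  let Ps : Vn n → FreeGroup X →* Wr (Bn K n) := fun r =>
    Psi q (fun _ => 0) (fun _ => 0) (fun _ => 0) (by simp) (by simp) (by simp) r
  have key : ∀ p : (FreeGroup X × X) × (FreeGroup X × X),
      (if p.1.2 = x ∧ p.2.2 = x' then ((q p.1.1).2 : K) * ((q p.2.1).2 : K) *
        phi K ((q p.1.1).1 * h) ((q p.2.1).1 * h') else 0) +
      (if p.1.2 = x' ∧ p.2.2 = x then ((q p.1.1).2 : K) * ((q p.2.1).2 : K) *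
        phi K ((q p.1.1).1 * h') ((q p.2.1).1 * h) else 0) =
      ∑ k ∈ (Finset.univ : Finset (Vn n × ZMod 2 × ZMod 2)),
        kr (Ps k.1) (a k.2.1 k.2.2) (f k.1 k.2.1 k.2.2) p := by
    rintro ⟨⟨g, z⟩, ⟨g', z'⟩⟩
    have hf : ∀ r μ μ', f r μ μ' ((Ps r g).b 0 * (Ps r g').b 0) =
        if (q g).1.e + (q g').1.e = h.e + h'.e ∧ ctr r (q g).1.w + ctr r (q g').1.w =
          ctr r (h.w + h'.w) + μ • h.e + μ' • h'.e then ((q g).2 : K) * ((q g').2 : K) else 0 := by
      intro r μ μ'
      simp [f, Ps, Psi]
    have hs : ∀ r, (Ps r g).s = dot r (q g).1.e := by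
      intro r; simp [Ps, Psi]
    have hs' : ∀ r, (Ps r g').s = dot r (q g').1.e := by
      intro r; simp [Ps, Psi]
    rw [Fintype.sum_prod_type]
    simp only [Fintype.sum_prod_type, kr, hf, hs, hs']
    by_cases h1 : z = x
    · subst h1
      by_cases h3 : z' = x'
      · subst h3
        have e1 : ∀ r : Vn n, ∀ μ μ' : ZMod 2,
            Om (a μ μ' z (dot r (q g).1.e)) (a μ μ' z' (dot r (q g').1.e)) =
            ((if dot r (q g).1.e = μ then (1 : K) else 0) *
              (if dot r (q g').1.e = μ' then (1 : K) else 0)) := by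
          intro r μ μ'
          simp [a, Om, hx.symm]
        simp only [e1, sum2]
        simp only [hx, and_self, if_true, false_and, if_false, add_zero]
        unfold phi
        rw [Finset.mul_sum]
        refine Finset.sum_congr rfl fun r _ => ?_
        rw [mul_ite, mul_one, mul_zero]
        exact if_congr (cond_iff r _ _ _ _) rfl rfl
      · have e1 : ∀ r : Vn n, ∀ μ μ' : ZMod 2,
            Om (a μ μ' z (dot r (q g).1.e)) (a μ μ' z' (dot r (q g').1.e)) = 0 := by
          intro r μ μ'
          by_cases h4 : z' = z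
          · subst h4
            simp [a, Om]
          · simp [a, Om, h3, h4]
        simp [e1, h3, hx]
    · by_cases h2 : z = x'
      · subst h2
        by_cases h3 : z' = x
        · subst h3
          have e1 : ∀ r : Vn n, ∀ μ μ' : ZMod 2,
              Om (a μ μ' z (dot r (q g).1.e)) (a μ μ' z' (dot r (q g').1.e)) =
              ((if dot r (q g).1.e = μ' then (1 : K) else 0) *
                (if dot r (q g').1.e = μ then (1 : K) else 0)) := by
            intro r μ μ'
            simp [a, Om, h1]
          simp only [e1, sum2']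
          simp only [h1, and_self, if_true, false_and, if_false, zero_add]
          unfold phi
          rw [Finset.mul_sum]
          refine Finset.sum_congr rfl fun r _ => ?_
          rw [mul_ite, mul_one, mul_zero]
          refine if_congr ((cond_iff r _ _ _ _).trans ?_) rfl rfl
          rw [add_comm h'.e h.e, add_comm h'.w h.w, add_right_comm]
        · have e1 : ∀ r : Vn n, ∀ μ μ' : ZMod 2,
              Om (a μ μ' z (dot r (q g).1.e)) (a μ μ' z' (dot r (q g').1.e)) = 0 := by
            intro r μ μ'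
            by_cases h4 : z' = z
            · subst h4
              simp [a, Om, h1]
            · simp [a, Om, h3, h4, h1]
          simp [e1, h3, h1]
      · have e1 : ∀ r : Vn n, ∀ μ μ' : ZMod 2,
            Om (a μ μ' z (dot r (q g).1.e)) (a μ μ' z' (dot r (q g').1.e)) = 0 := by
          intro r μ μ'
          simp [a, Om, h1, h2]
        simp [e1, h1, h2]
  simp only [key]
  exact lc_sum _ _ _ fun k _ => hR _ _ _ _

/-- diagonal terms -/
theorem diag_t (h2 : (2 : K) = 0) (q : FreeGroup X →* Hn n × Kˣ) (Y : UZ2 K X) (hR : RP Y)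
    (x : X) (be : FreeGroup X → ZMod 2) (V ta : FreeGroup X → Vn n)
    (hbe : ∀ g g', be (g * g') = be g + be g')
    (hV : ∀ g g', V (g * g') = V g + V g' + be g • (q g').1.e)
    (hta : ∀ g g', ta (g * g') = ta g + ta g') (t : Vn n)
    (ht : ∀ g g', ta g + ta g' = t → be g + be g' = 1) :
    Finsupp.linearCombination K (fun p : (FreeGroup X × X) × (FreeGroup X × X) =>
      (if p.1.2 = x ∧ p.2.2 = x ∧ (q p.1.1).1.e = (q p.2.1).1.e ∧ ta p.1.1 + ta p.2.1 = t then
        ((q p.1.1).2 : K) * ((q p.2.1).2 : K) *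
        Dc K ((q p.1.1).1.w + (q p.2.1).1.w) 0 else 0)) Y = 0 := by
  let a : X → ZMod 2 → K × K := fun z m =>
    if z = x then (if m = 0 then 1 else 0, if m = 0 then 0 else 1) else 0
  let f : Bn K n → K := fun v =>
    if (Multiplicative.toAdd v.1).2.1 = 0 ∧ (Multiplicative.toAdd v.1).2.2 = t ∧
      (Multiplicative.toAdd v.1).1 = 0 then (v.2 : K) else 0
  have key : ∀ p : (FreeGroup X × X) × (FreeGroup X × X),
      (if p.1.2 = x ∧ p.2.2 = x ∧ (q p.1.1).1.e = (q p.2.1).1.e ∧ ta p.1.1 + ta p.2.1 = t then
        ((q p.1.1).2 : K) * ((q p.2.1).2 : K) *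
        Dc K ((q p.1.1).1.w + (q p.2.1).1.w) 0 else 0) =
      ∑ k ∈ (Finset.univ : Finset (Vn n)),
        kr (Psi q be V ta hbe hV hta k) a f p := by
    rintro ⟨⟨g, z⟩, ⟨g', z'⟩⟩
    have hf : ∀ r, f ((Psi q be V ta hbe hV hta r g).b 0 * (Psi q be V ta hbe hV hta r g').b 0) =
        if (q g).1.e + (q g').1.e = 0 ∧ ta g + ta g' = t ∧
          ctr r (q g).1.w + V g + (ctr r (q g').1.w + V g') = 0
          then ((q g).2 : K) * ((q g').2 : K) else 0 := by
      intro r
      simp [f, Psi]
    have hs : ∀ r g, (Psi q be V ta hbe hV hta r g).s = dot r (q g).1.e + be g := by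
      intro r g; rfl
    simp only [kr, hf, hs]
    by_cases h1 : z = x ∧ z' = x
    · obtain ⟨rfl, rfl⟩ := h1
      by_cases h3 : (q g).1.e = (q g').1.e ∧ ta g + ta g' = t
      · rw [if_pos ⟨rfl, rfl, h3⟩, Dc_indep h2 _ 0 (V g + V g')]
        unfold Dc
        rw [Finset.mul_sum]
        refine Finset.sum_congr rfl fun r _ => ?_
        have hb := ht g g' h3.2
        have hO : Om (a z' (dot r (q g).1.e + be g)) (a z' (dot r (q g').1.e + be g')) = 1 := by
          rw [h3.1]
          generalize dot r (q g').1.e = d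
          generalize be g = b at hb ⊢
          generalize be g' = b' at hb ⊢
          have hK : (1 : K) + 1 = 0 := by rw [one_add_one_eq_two]; exact h2
          have hb' : d + b + (d + b') = 1 := by
            have := Wr.add_self_zmod2 d
            linear_combination hb + this
          generalize d + b = u at hb' ⊢
          generalize d + b' = u' at hb' ⊢
          simp only [a, Om, if_true]
          have h01 : ∀ u u' : ZMod 2, u + u' = 1 → (u = 0 ∧ u' ≠ 0) ∨ (u ≠ 0 ∧ u' = 0) := by decide
          rcases h01 u u' hb' with ⟨h5, h6⟩ | ⟨h5, h6⟩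
          · simp [h5, h6]
          · simp [h5, h6]
        rw [hO, one_mul, mul_ite, mul_one, mul_zero]
        refine if_congr ?_ rfl rfl
        have e1 : (q g).1.e + (q g').1.e = 0 := by rw [h3.1, vadd_self]
        simp only [e1, h3.2, true_and, ctr_add]
        constructor
        · intro h5
          have : ctr r (q g).1.w + V g + (ctr r (q g').1.w + V g') =
            (ctr r (q g).1.w + ctr r (q g').1.w) + (V g + V g') := by abel
          rw [this, h5, vadd_self]
        · intro h5
          have h6 : ctr r (q g).1.w + V g + (ctr r (q g').1.w + V g') =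
            (ctr r (q g).1.w + ctr r (q g').1.w) + (V g + V g') := by abel
          rw [h6] at h5
          calc ctr r (q g).1.w + ctr r (q g').1.w = ctr r (q g).1.w + ctr r (q g').1.w +
                ((V g + V g') + (V g + V g')) := by rw [vadd_self, add_zero]
            _ = (ctr r (q g).1.w + ctr r (q g').1.w + (V g + V g')) + (V g + V g') := by abel
            _ = V g + V g' := by rw [h5, zero_add]
      · have e2 : ¬ (z' = z' ∧ z' = z' ∧ (q g).1.e = (q g').1.e ∧ ta g + ta g' = t) := by
          rintro ⟨-, -, h5⟩; exact h3 h5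
        rw [if_neg e2]
        symm
        refine Finset.sum_eq_zero fun r _ => ?_
        rw [if_neg, mul_zero]
        rintro ⟨h5, h6, -⟩
        refine h3 ⟨?_, h6⟩
        calc (q g).1.e = (q g).1.e + ((q g').1.e + (q g').1.e) := by rw [vadd_self, add_zero]
          _ = ((q g).1.e + (q g').1.e) + (q g').1.e := by rw [add_assoc]
          _ = (q g').1.e := by rw [h5, zero_add]
    · have e2 : ¬ (z = x ∧ z' = x ∧ (q g).1.e = (q g').1.e ∧ ta g + ta g' = t) := by
        rintro ⟨h5, h6, -⟩; exact h1 ⟨h5, h6⟩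
      rw [if_neg e2]
      symm
      refine Finset.sum_eq_zero fun r _ => ?_
      have hO : Om (a z (dot r (q g).1.e + be g)) (a z' (dot r (q g').1.e + be g')) = 0 := by
        by_cases h5 : z = x
        · have h6 : z' ≠ x := fun h6 => h1 ⟨h5, h6⟩
          simp [a, Om, h6]
        · simp [a, Om, h5]
      rw [hO, zero_mul]
  simp only [key]
  exact lc_sum _ _ _ fun k _ => hR _ _ _ _

end Pool.Agent.FBR
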