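import Mathlib

set_option autoImplicit false

namespace Pool.Agent.FBR

/-! ### The group `Wr B` (functions on `ZMod 2` with values in `B`, extended by the shift) -/

@[ext] structure Wr (B : Type) where
  b : ZMod 2 → B
  s : ZMod 2

namespace Wr

variable {B : Type} [CommGroup B]

theorem add_self_zmod2 (x : ZMod 2) : x + x = 0 := by
  revert x; decide

instance : Mul (Wr B) := ⟨fun x y => ⟨fun m => x.b m * y.b (m + x.s), x.s + y.s⟩⟩
instance : One (Wr B) := ⟨⟨fun _ => 1, 0⟩⟩
instance : Inv (Wr B) := ⟨fun x => ⟨fun m => (x.b (m + x.s))⁻¹, x.s⟩⟩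

@[simp] theorem mul_b (x y : Wr B) (m : ZMod 2) : (x * y).b m = x.b m * y.b (m + x.s) := rfl
@[simp] theorem mul_s (x y : Wr B) : (x * y).s = x.s + y.s := rfl
@[simp] theorem one_b (m : ZMod 2) : (1 : Wr B).b m = 1 := rfl
@[simp] theorem one_s : (1 : Wr B).s = 0 := rfl
@[simp] theorem inv_b (x : Wr B) (m : ZMod 2) : (x⁻¹).b m = (x.b (m + x.s))⁻¹ := rfl
@[simp] theorem inv_s (x : Wr B) : (x⁻¹).s = x.s := rfl

instance : Group (Wr B) := Group.ofLeftAxioms
  (by
    intro x y z
    ext m
    · simp [mul_assoc, add_assoc]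
    · simp [add_assoc])
  (by
    intro x
    ext m
    · simp
    · simp)
  (by
    intro x
    ext m
    · simp
    · simp [add_self_zmod2])

end Wr

/-! ### The group attached to an equivariant bilinear map -/

structure Dat (K Q E Z : Type) [Field K] [Group Q] [AddCommGroup E] [Module K E]
    [AddCommGroup Z] [Module K Z] where
  pe : Q →* Module.End K E
  pz : Q →* Module.End K Z
  om : E →ₗ[K] E →ₗ[K] Z
  eqv : ∀ q x y, om (pe q x) (pe q y) = pz q (om x y)

section Con

variable {K Q E Z : Type} [Field K] [Group Q] [AddCommGroup E] [Module K E]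
    [AddCommGroup Z] [Module K Z]

@[ext] structure Con (D : Dat K Q E Z) where
  a : E
  c : Z
  q : Q

namespace Con

variable {D : Dat K Q E Z}

instance : Mul (Con D) := ⟨fun x y =>
  ⟨x.a + D.pe x.q y.a, x.c + D.pz x.q y.c + D.om x.a (D.pe x.q y.a), x.q * y.q⟩⟩
instance : One (Con D) := ⟨⟨0, 0, 1⟩⟩
instance : Inv (Con D) := ⟨fun x =>
  ⟨- D.pe x.q⁻¹ x.a, - D.pz x.q⁻¹ x.c + D.pz x.q⁻¹ (D.om x.a x.a), x.q⁻¹⟩⟩

@[simp] theorem mul_a (x y : Con D) : (x * y).a = x.a + D.pe x.q y.a := rfl
@[simp] theorem mul_c (x y : Con D) :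
    (x * y).c = x.c + D.pz x.q y.c + D.om x.a (D.pe x.q y.a) := rfl
@[simp] theorem mul_q (x y : Con D) : (x * y).q = x.q * y.q := rfl
@[simp] theorem one_a : (1 : Con D).a = 0 := rfl
@[simp] theorem one_c : (1 : Con D).c = 0 := rfl
@[simp] theorem one_q : (1 : Con D).q = 1 := rfl
@[simp] theorem inv_a (x : Con D) : (x⁻¹).a = - D.pe x.q⁻¹ x.a := rfl
@[simp] theorem inv_c (x : Con D) :
    (x⁻¹).c = - D.pz x.q⁻¹ x.c + D.pz x.q⁻¹ (D.om x.a x.a) := rfl
@[simp] theorem inv_q (x : Con D) : (x⁻¹).q = x.q⁻¹ := rfl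

instance : Group (Con D) := Group.ofLeftAxioms
  (by
    intro x y z
    ext
    · simp [map_add, add_assoc]
    · simp only [mul_c, mul_a, mul_q, map_add, map_mul, Module.End.mul_apply, LinearMap.add_apply,
        D.eqv]
      abel
    · simp [mul_assoc])
  (by
    intro x
    ext <;> simp)
  (by
    intro x
    ext
    · simp
    · simp [D.eqv]
    · simp)

/-- the projection to the acting group -/
def proj (D : Dat K Q E Z) : Con D →* Q where
  toFun x := x.q
  map_one' := rfl
  map_mul' _ _ := rfl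

/-- the representation of `Con D` on `K × E × Z` -/
def rep (D : Dat K Q E Z) : Representation K (Con D) (K × E × Z) where
  toFun x :=
    { toFun := fun v => (v.1, v.1 • x.a + D.pe x.q v.2.1,
        v.1 • x.c + D.pz x.q v.2.2 + D.om x.a (D.pe x.q v.2.1))
      map_add' := by
        intro v w
        ext
        · simp
        · simp [add_smul]; abel
        · simp [add_smul]; abel
      map_smul' := by
        intro r v
        ext
        · simp
        · simp [mul_smul]
        · simp [mul_smul] }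
  map_one' := by
    ext v <;> simp
  map_mul' x y := by
    refine LinearMap.ext fun v => ?_
    ext
    · simp
    · simp [smul_add, add_assoc]
    · simp [smul_add, D.eqv]
      abel

@[simp] theorem rep_apply (x : Con D) (v : K × E × Z) :
    rep D x v = (v.1, v.1 • x.a + D.pe x.q v.2.1,
        v.1 • x.c + D.pz x.q v.2.2 + D.om x.a (D.pe x.q v.2.1)) := rfl

end Con

end Con

end Pool.Agent.FBR
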